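import Pool.Agent.Lib.CTI.Main

/-!
# Closed subspaces generated by Turing ideals (MP_4c1ea5_lc, Q2): consistency of the negative answer

There is a model `(M, E)` of ZFC with standard natural numbers in which every Turing ideal `U` whose generated
subspace of the space of coarse similarity classes is closed contains all subsets of `ω`. So in this model no Turing
ideal generates a nonempty closed subspace different from the whole space.

`IsZFC` is in `Lib/BVM/ZFCDef.lean`; `IsNum`, `IsStdOmega`, `SetTR` are in `Lib/SX/MDefs.lean`. `SetTR A B` is
Mathlib's `TuringReducible` for the characteristic functions of `A` and `B`.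

The model comes from the product of more than continuum many Sacks forcings with countable supports.
* If `U` generates a closed subspace, then (robust coding of a matrix of bits, decoding by majority) every real is the
  limit of a member of `U`, and every countable sequence of members of `U` has an upper bound in `U`.
* In the extension by the product of Sacks forcings every ideal with these two properties contains all reals.
-/

set_option autoImplicit false

open Filter Topology

namespace Pool.Agent.Results.MP_4c1ea5_lc.ClosedIdeals

open Pool.Agent.SX Pool.Agent.Lib.BVM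

/-- `|A ∩ [0, n)| / n` -/
noncomputable def dens (A : Set ℕ) (n : ℕ) : ℝ := ((A ∩ Set.Iio n).ncard : ℝ) / n

/-- upper density -/
noncomputable def upperDensity (A : Set ℕ) : ℝ := limsup (dens A) atTop

/-- `A ∆ B` has density 0 -/
def CoarselySimilar (A B : Set ℕ) : Prop := Tendsto (dens (symmDiff A B)) atTop (𝓝 0)

section
variable {M : Type*} (E : M → M → Prop)

/-- the set of all natural numbers in `x` -/
def Nset (x : M) : Set ℕ := {n | ∃ k, IsNum E n k ∧ E k x}

/-- `x` is a subset of `w` -/
def SubW (w x : M) : Prop := ∀ z, E z x → E z w

/-- the join of two sets of natural numbers -/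
def setJoin (A B : Set ℕ) : Set ℕ := {n | (n % 2 = 0 ∧ n / 2 ∈ A) ∨ (n % 2 = 1 ∧ n / 2 ∈ B)}

/-- `U` is a Turing ideal: a nonempty set of subsets of `w = ω`, closed downward under Turing reducibility and
closed under joins -/
def IsTuringIdeal (w U : M) : Prop :=
  (∀ x, E x U → SubW E w x) ∧ (∃ x, E x U) ∧
  (∀ x y, SubW E w x → E y U → SetTR (Nset E x) (Nset E y) → E x U) ∧
  ∀ x y z, E x U → E y U → SubW E w z → Nset E z = setJoin (Nset E x) (Nset E y) → E z U

/-- the subspace generated by `U` is closed: if the class of `x` is a limit of classes of members of `U` then it is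
the class of a member of `U` -/
def IsClosedSub (w U : M) : Prop :=
  ∀ x, SubW E w x →
    (∀ ε : ℝ, 0 < ε → ∃ y, E y U ∧ upperDensity (symmDiff (Nset E x) (Nset E y)) < ε) →
    ∃ y, E y U ∧ CoarselySimilar (Nset E x) (Nset E y)

end

/-- There is a model of ZFC with standard natural numbers in which every Turing ideal whose generated subspace is
closed contains all subsets of `ω`. -/
theorem result :
    ∃ (M : Type 1) (E : M → M → Prop), IsZFC E ∧ ∃ w : M, IsStdOmega E w ∧
      ∀ U : M, IsTuringIdeal E w U → IsClosedSub E w U → ∀ x, SubW E w x → E x U := by
  obtain ⟨M, E, h, w, hw, H⟩ := Pool.Agent.CTI.noClosedIdeal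
  exact ⟨M, E, h, w, hw, fun U hI hC => H U hI hC⟩

end Pool.Agent.Results.MP_4c1ea5_lc.ClosedIdeals
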