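import Mathlib

/-!
# MP_4c1ea5_lc, Q1 : closed subspaces of coarse similarity classes generated by
Turing-invariant sets

For a noncomputable set `A₀` let `U` be the class of all sets that do not compute `A₀`.  Then the
subspace generated by `U` is nonempty, proper and closed in the metric space of coarse similarity
classes.  No appeal to the continuum hypothesis is made.

Closedness is a cone avoidance argument: if `X` is a limit of sets `Y` not computing `A₀`, a
representative `B` of the class of `X` not computing `A₀` is built by finite extensions; at each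
stage one uses the `Y`-computable tree of all strings that differ from `Y` with density at
most `ε` beyond the current string.  Properness uses a robust block coding of `A₀`.
-/

open Filter Topology

namespace Pool.Agent.Results.MP_4c1ea5_lc.ConeAvoidance

section Computability

open Encodable

/-- first `n` bits of `x` -/
def pre (x : ℕ → Bool) (n : ℕ) : List Bool := (List.range n).map x

def orc (x : ℕ → Bool) : ℕ →. ℕ := fun n => Part.some (x n).toNat

def MonoE (E : List Bool → ℕ →. ℕ) : Prop :=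
  ∀ τ τ' : List Bool, τ <+: τ' → ∀ k v, v ∈ E τ k → v ∈ E τ' k

def Approx (E : List Bool → ℕ →. ℕ) (x : ℕ → Bool) (f : ℕ →. ℕ) : Prop :=
  ∀ k v, v ∈ f k ↔ ∃ n, v ∈ E (pre x n) k

lemma pre_prefix (x : ℕ → Bool) {m n : ℕ} (h : m ≤ n) : pre x m <+: pre x n := by
  unfold pre
  apply List.IsPrefix.map
  obtain ⟨d, rfl⟩ := Nat.exists_eq_add_of_le h
  rw [List.range_add]
  exact List.prefix_append _ _

lemma mono_pre {E : List Bool → ℕ →. ℕ} (hE : MonoE E) {x : ℕ → Bool} {m n : ℕ} (h : m ≤ n)
    {k v : ℕ} (hv : v ∈ E (pre x m) k) : v ∈ E (pre x n) k :=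
  hE _ _ (pre_prefix x h) k v hv

lemma pre_getElem? (x : ℕ → Bool) (n i : ℕ) (h : i < n) : (pre x n)[i]? = some (x i) := by
  unfold pre
  simp [h]

lemma pre_getElem?_none (x : ℕ → Bool) (n i : ℕ) (h : n ≤ i) : (pre x n)[i]? = none := by
  unfold pre
  simp [h]

def precE (F H : List Bool → ℕ →. ℕ) : List Bool → ℕ →. ℕ := fun τ p =>
  (Nat.unpair p).2.rec (F τ (Nat.unpair p).1) fun y IH => IH >>= fun i =>
    H τ (Nat.pair (Nat.unpair p).1 (Nat.pair y i))

lemma exists_E {x : ℕ → Bool} {f : ℕ →. ℕ} (hf : Nat.RecursiveIn {orc x} f) :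
    ∃ E : List Bool → ℕ →. ℕ, Partrec₂ E ∧ MonoE E ∧ Approx E x f := by
  induction hf with
  | zero =>
    refine ⟨fun _ _ => Part.some 0, (Computable.const 0).partrec, fun _ _ _ _ _ h => h, ?_⟩
    intro k v
    constructor
    · intro h; exact ⟨0, h⟩
    · rintro ⟨n, h⟩; exact h
  | succ =>
    refine ⟨fun _ k => Part.some (k + 1), ?_, fun _ _ _ _ _ h => h, ?_⟩
    · exact (Computable.succ.comp Computable.snd).partrec
    · intro k v
      constructor
      · intro h; exact ⟨0, h⟩
      · rintro ⟨n, h⟩; exact h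
  | left =>
    refine ⟨fun _ k => Part.some (Nat.unpair k).1, ?_, fun _ _ _ _ _ h => h, ?_⟩
    · exact (Computable.fst.comp (Computable.unpair.comp Computable.snd)).partrec
    · intro k v
      constructor
      · intro h; exact ⟨0, h⟩
      · rintro ⟨n, h⟩; exact h
  | right =>
    refine ⟨fun _ k => Part.some (Nat.unpair k).2, ?_, fun _ _ _ _ _ h => h, ?_⟩
    · exact (Computable.snd.comp (Computable.unpair.comp Computable.snd)).partrec
    · intro k v
      constructor
      · intro h; exact ⟨0, h⟩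
      · rintro ⟨n, h⟩; exact h
  | oracle g hg =>
    rw [Set.mem_singleton_iff] at hg
    subst hg
    refine ⟨fun τ k => (((τ[k]?).map Bool.toNat : Option ℕ) : Part ℕ), ?_, ?_, ?_⟩
    · have h1 : Computable fun p : List Bool × ℕ => (p.1[p.2]? : Option Bool) :=
        Computable.list_getElem?
      have h2 : Computable₂ fun (_ : List Bool × ℕ) (b : Bool) => b.toNat :=
        ((Primrec.dom_finite Bool.toNat).comp Primrec.snd).to_comp
      exact (Computable.option_map h1 h2).ofOption
    · intro τ τ' h k v hv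
      simp only [Part.mem_ofOption, Option.mem_def, Option.map_eq_some_iff] at hv ⊢
      obtain ⟨b, hb, rfl⟩ := hv
      obtain ⟨t, rfl⟩ := h
      obtain ⟨hk, _⟩ := List.getElem?_eq_some_iff.1 hb
      exact ⟨b, by rw [List.getElem?_append_left hk]; exact hb, rfl⟩
    · intro k v
      simp only [orc, Part.mem_some_iff, Part.mem_ofOption, Option.mem_def,
        Option.map_eq_some_iff]
      constructor
      · rintro rfl
        exact ⟨k + 1, x k, pre_getElem? x _ _ (Nat.lt_succ_self k), rfl⟩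
      · rintro ⟨n, b, hb, rfl⟩
        by_cases h : k < n
        · rw [pre_getElem? x n k h] at hb
          cases hb; rfl
        · rw [pre_getElem?_none x n k (by omega)] at hb
          cases hb
  | @pair f h hf hh ihf ihh =>
    obtain ⟨F, hF, mF, aF⟩ := ihf
    obtain ⟨H, hH, mH, aH⟩ := ihh
    refine ⟨fun τ k => Nat.pair <$> F τ k <*> H τ k, ?_, ?_, ?_⟩
    · have : Partrec fun p : List Bool × ℕ => (F p.1 p.2).bind fun a =>
          (H p.1 p.2).map fun b => Nat.pair a b := by
        refine Partrec.bind hF ?_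
        refine Partrec.map (f := fun q : (List Bool × ℕ) × ℕ => H q.1.1 q.1.2)
          (g := fun q b => Nat.pair q.2 b) ?_ ?_
        · exact hH.comp (Computable.fst.comp Computable.fst) (Computable.snd.comp Computable.fst)
        · exact (Primrec₂.natPair.comp (Primrec.snd.comp Primrec.fst) Primrec.snd).to_comp
      refine this.of_eq fun p => ?_
      ext v
      simp [Seq.seq]
    · intro τ τ' hτ k v hv
      simp only [Seq.seq, Part.bind_eq_bind, Part.map_eq_map, Part.mem_bind_iff,
        Part.mem_map_iff] at hv ⊢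
      obtain ⟨g, ⟨a, ha, rfl⟩, b, hb, rfl⟩ := hv
      exact ⟨_, ⟨a, mF _ _ hτ _ _ ha, rfl⟩, b, mH _ _ hτ _ _ hb, rfl⟩
    · intro k v
      simp only [Seq.seq, Part.bind_eq_bind, Part.map_eq_map, Part.mem_bind_iff,
        Part.mem_map_iff]
      constructor
      · rintro ⟨g, ⟨a, ha, rfl⟩, b, hb, rfl⟩
        obtain ⟨n1, h1⟩ := (aF _ _).1 ha
        obtain ⟨n2, h2⟩ := (aH _ _).1 hb
        exact ⟨max n1 n2, _, ⟨a, mono_pre mF (le_max_left _ _) h1, rfl⟩, b,
          mono_pre mH (le_max_right _ _) h2, rfl⟩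
      · rintro ⟨n, g, ⟨a, ha, rfl⟩, b, hb, rfl⟩
        exact ⟨_, ⟨a, (aF _ _).2 ⟨n, ha⟩, rfl⟩, b, (aH _ _).2 ⟨n, hb⟩, rfl⟩
  | @comp f h hf hh ihf ihh =>
    obtain ⟨F, hF, mF, aF⟩ := ihf
    obtain ⟨H, hH, mH, aH⟩ := ihh
    refine ⟨fun τ k => (H τ k).bind (F τ), ?_, ?_, ?_⟩
    · have : Partrec fun p : List Bool × ℕ => (H p.1 p.2).bind fun a => F p.1 a := by
        refine Partrec.bind hH ?_
        exact hF.comp (Computable.fst.comp Computable.fst) Computable.snd
      exact this
    · intro τ τ' hτ k v hv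
      obtain ⟨a, ha, hv⟩ := Part.mem_bind_iff.1 hv
      exact Part.mem_bind_iff.2 ⟨a, mH _ _ hτ _ _ ha, mF _ _ hτ _ _ hv⟩
    · intro k v
      constructor
      · intro hv
        obtain ⟨a, ha, hv⟩ := Part.mem_bind_iff.1 hv
        obtain ⟨n1, h1⟩ := (aH _ _).1 ha
        obtain ⟨n2, h2⟩ := (aF _ _).1 hv
        exact ⟨max n1 n2, Part.mem_bind_iff.2 ⟨a, mono_pre mH (le_max_left _ _) h1,
          mono_pre mF (le_max_right _ _) h2⟩⟩
      · rintro ⟨n, hv⟩
        obtain ⟨a, ha, hv⟩ := Part.mem_bind_iff.1 hv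
        exact Part.mem_bind_iff.2 ⟨a, (aH _ _).2 ⟨n, ha⟩, (aF _ _).2 ⟨n, hv⟩⟩
  | @prec f h hf hh ihf ihh =>
    obtain ⟨F, hF, mF, aF⟩ := ihf
    obtain ⟨H, hH, mH, aH⟩ := ihh
    refine ⟨precE F H, ?_, ?_, ?_⟩
    · have := Partrec.nat_rec (α := List Bool × ℕ) (σ := ℕ)
        (f := fun p => (Nat.unpair p.2).2)
        (g := fun p => F p.1 (Nat.unpair p.2).1)
        (h := fun p q => H p.1 (Nat.pair (Nat.unpair p.2).1 (Nat.pair q.1 q.2)))
        (Computable.snd.comp (Computable.unpair.comp Computable.snd))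
        (hF.comp Computable.fst (Computable.fst.comp (Computable.unpair.comp Computable.snd)))
        (hH.comp (Computable.fst.comp Computable.fst)
          ((Primrec₂.natPair.comp
            (Primrec.fst.comp (Primrec.unpair.comp (Primrec.snd.comp Primrec.fst)))
            (Primrec₂.natPair.comp (Primrec.fst.comp Primrec.snd)
              (Primrec.snd.comp Primrec.snd))).to_comp))
      exact this
    · intro τ τ' hτ k v hv
      unfold precE at hv ⊢
      generalize (Nat.unpair k).2 = n at hv ⊢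
      induction n generalizing v with
      | zero => exact mF _ _ hτ _ _ hv
      | succ n ih =>
        simp only [Part.bind_eq_bind, Part.mem_bind_iff] at hv ⊢
        obtain ⟨i, hi, hv⟩ := hv
        exact ⟨i, ih i hi, mH _ _ hτ _ _ hv⟩
    · intro k v
      have key : ∀ (n : ℕ) (v : ℕ),
          (v ∈ (Nat.rec (f (Nat.unpair k).1) (fun y IH => IH >>= fun i =>
            h (Nat.pair (Nat.unpair k).1 (Nat.pair y i))) n : Part ℕ)) ↔
          ∃ N, v ∈ (Nat.rec (F (pre x N) (Nat.unpair k).1) (fun y IH => IH >>= fun i =>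
            H (pre x N) (Nat.pair (Nat.unpair k).1 (Nat.pair y i))) n : Part ℕ) := by
        intro n
        induction n with
        | zero => intro v; exact aF _ _
        | succ n ih =>
          intro v
          simp only [Part.bind_eq_bind, Part.mem_bind_iff]
          have hmono : ∀ (M N : ℕ), M ≤ N → ∀ w,
              w ∈ (Nat.rec (F (pre x M) (Nat.unpair k).1) (fun y IH => IH.bind fun i =>
                H (pre x M) (Nat.pair (Nat.unpair k).1 (Nat.pair y i))) n : Part ℕ) →
              w ∈ (Nat.rec (F (pre x N) (Nat.unpair k).1) (fun y IH => IH.bind fun i =>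
                H (pre x N) (Nat.pair (Nat.unpair k).1 (Nat.pair y i))) n : Part ℕ) := by
            intro M N hMN
            clear ih
            induction n with
            | zero => intro w hw; exact mono_pre mF hMN hw
            | succ n ih2 =>
              intro w hw
              simp only [Part.mem_bind_iff] at hw ⊢
              obtain ⟨i, hi, hw⟩ := hw
              exact ⟨i, ih2 i hi, mono_pre mH hMN hw⟩
          constructor
          · rintro ⟨i, hi, hv⟩
            obtain ⟨n1, h1⟩ := (ih i).1 hi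
            obtain ⟨n2, h2⟩ := (aH _ _).1 hv
            exact ⟨max n1 n2, i, hmono _ _ (le_max_left _ _) _ h1,
              mono_pre mH (le_max_right _ _) h2⟩
          · rintro ⟨N, i, hi, hv⟩
            exact ⟨i, (ih i).2 ⟨N, hi⟩, (aH _ _).2 ⟨N, hv⟩⟩
      exact key (Nat.unpair k).2 v
  | @rfind f hf ihf =>
    obtain ⟨F, hF, mF, aF⟩ := ihf
    let P : List Bool → ℕ → ℕ →. Bool := fun τ a n =>
      (F τ (Nat.pair a n)).map fun m => decide (m = 0)
    have hP : ∀ τ a n b, b ∈ P τ a n ↔ ∃ m, m ∈ F τ (Nat.pair a n) ∧ decide (m = 0) = b := by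
      intro τ a n b
      exact Part.mem_map_iff _
    refine ⟨fun τ a => Nat.rfind (P τ a), ?_, ?_, ?_⟩
    · refine Partrec.rfind (p := fun (p : List Bool × ℕ) => P p.1 p.2) ?_
      refine Partrec.map (f := fun q : (List Bool × ℕ) × ℕ => F q.1.1 (Nat.pair q.1.2 q.2))
        (g := fun _ m => decide (m = 0)) ?_ ?_
      · exact hF.comp (Computable.fst.comp Computable.fst)
          ((Primrec₂.natPair.comp (Primrec.snd.comp Primrec.fst) Primrec.snd).to_comp)
      · have := (Primrec.eq.comp (Primrec.snd (α := (List Bool × ℕ) × ℕ) (β := ℕ))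
          (Primrec.const 0)).decide
        exact this.to_comp
    · intro τ τ' hτ a v hv
      have hv' : v ∈ Nat.rfind (P τ a) := hv
      show v ∈ Nat.rfind (P τ' a)
      rw [Nat.mem_rfind] at hv' ⊢
      simp only [hP] at hv' ⊢
      obtain ⟨⟨m, hm, hm0⟩, hlt⟩ := hv'
      refine ⟨⟨m, mF _ _ hτ _ _ hm, hm0⟩, fun {j} hj => ?_⟩
      obtain ⟨m', hm', h0⟩ := hlt hj
      exact ⟨m', mF _ _ hτ _ _ hm', h0⟩
    · intro a v
      constructor
      · intro hv
        obtain ⟨hv1, hlt⟩ := Nat.mem_rfind.1 hv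
        obtain ⟨m, hm, hm0⟩ := (Part.mem_map_iff _).1 hv1
        obtain ⟨n0, h0⟩ := (aF _ _).1 hm
        have hex : ∀ j : ℕ, ∃ N, j < v → ∃ m', m' ∈ F (pre x N) (Nat.pair a j) ∧
            decide (m' = 0) = false := by
          intro j
          by_cases hj : j < v
          · obtain ⟨m', hm', h'⟩ := (Part.mem_map_iff _).1 (hlt hj)
            obtain ⟨N, hN⟩ := (aF _ _).1 hm'
            exact ⟨N, fun _ => ⟨m', hN, h'⟩⟩
          · exact ⟨0, fun h => absurd h hj⟩
        choose N hN using hex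
        refine ⟨max n0 ((Finset.range v).sup N), Nat.mem_rfind.2
          ⟨(hP _ _ _ _).2 ⟨m, mono_pre mF (le_max_left _ _) h0, hm0⟩, fun {j} hj => ?_⟩⟩
        obtain ⟨m', hm', h'⟩ := hN j hj
        exact (hP _ _ _ _).2 ⟨m', mono_pre mF ((Finset.le_sup (Finset.mem_range.2 hj)).trans
          (le_max_right _ _)) hm', h'⟩
      · rintro ⟨n, hv⟩
        obtain ⟨hv1, hlt⟩ := Nat.mem_rfind.1 hv
        obtain ⟨m, hm, hm0⟩ := (hP _ _ _ _).1 hv1
        refine Nat.mem_rfind.2 ⟨(Part.mem_map_iff _).2 ⟨m, (aF _ _).2 ⟨n, hm⟩, hm0⟩,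
          fun {j} hj => ?_⟩
        obtain ⟨m', hm', h'⟩ := (hP _ _ _ _).1 (hlt hj)
        exact (Part.mem_map_iff _).2 ⟨m', (aF _ _).2 ⟨n, hm'⟩, h'⟩

/-! total functions recursive in an oracle -/

def RTot (O : Set (ℕ →. ℕ)) (f : ℕ → ℕ) : Prop := Nat.RecursiveIn O (fun n => Part.some (f n))

lemma RTot.primrec {O : Set (ℕ →. ℕ)} {f : ℕ → ℕ} (hf : Nat.Primrec f) : RTot O f :=
  hf.recursiveIn

lemma RTot.comp {O : Set (ℕ →. ℕ)} {f g : ℕ → ℕ} (hf : RTot O f) (hg : RTot O g) :
    RTot O (fun n => f (g n)) := by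
  refine (Nat.RecursiveIn.comp hf hg).of_eq fun n => ?_
  exact Part.bind_some _ _

lemma RTot.pair {O : Set (ℕ →. ℕ)} {f g : ℕ → ℕ} (hf : RTot O f) (hg : RTot O g) :
    RTot O (fun n => Nat.pair (f n) (g n)) := by
  refine (Nat.RecursiveIn.pair hf hg).of_eq fun n => ?_
  simp [Seq.seq]

lemma RTot.id {O : Set (ℕ →. ℕ)} : RTot O (fun n => n) := RTot.primrec Nat.Primrec.id

lemma RTot.prec {O : Set (ℕ →. ℕ)} {f h : ℕ → ℕ} (hf : RTot O f) (hh : RTot O h) :
    RTot O (fun p => Nat.rec (f (Nat.unpair p).1)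
      (fun y IH => h (Nat.pair (Nat.unpair p).1 (Nat.pair y IH))) (Nat.unpair p).2) := by
  have aux : ∀ a n : ℕ, (Nat.rec (Part.some (f a)) (fun y IH => IH >>= fun i =>
      Part.some (h (Nat.pair a (Nat.pair y i)))) n : Part ℕ) =
      Part.some (Nat.rec (f a) (fun y IH => h (Nat.pair a (Nat.pair y IH))) n) := by
    intro a n
    induction n with
    | zero => rfl
    | succ n ih =>
      simp only
      rw [ih]
      exact Part.bind_some _ _
  exact (Nat.RecursiveIn.prec hf hh).of_eq fun p => aux _ _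

/-- the oracle prefixes are computable in the oracle -/
lemma RTot.oraclePre (Y : ℕ → Bool) (ℓ : ℕ) :
    RTot {orc Y} (fun t => encode (pre (fun j => Y (ℓ + j)) t)) := by
  have ho : RTot {orc Y} (fun n => (Y n).toNat) := Nat.RecursiveIn.oracle _ rfl
  -- step function
  let hp : ℕ × ℕ → ℕ := fun q =>
    encode (((decode q.1 : Option (List Bool)).getD []) ++ [q.2 == 1])
  have hhp : Primrec hp := by
    refine Primrec.encode.comp ?_
    refine Primrec.list_append.comp ?_ ?_
    · exact Primrec.option_getD.comp (Primrec.decode.comp Primrec.fst) (Primrec.const [])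
    · refine Primrec.list_cons.comp ?_ (Primrec.const [])
      exact Primrec.beq.comp Primrec.snd (Primrec.const 1)
  have hhp' : Nat.Primrec (fun n => hp (Nat.unpair n)) :=
    Primrec.nat_iff.1 (hhp.comp Primrec.unpair)
  have hplus : Nat.Primrec (fun n => ℓ + n) :=
    Primrec.nat_iff.1 (Primrec.nat_add.comp (Primrec.const ℓ) Primrec.id)
  have hsnd : Nat.Primrec (fun n => (Nat.unpair n).2) :=
    Primrec.nat_iff.1 (Primrec.snd.comp Primrec.unpair)
  have hfst : Nat.Primrec (fun n => (Nat.unpair n).1) :=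
    Primrec.nat_iff.1 (Primrec.fst.comp Primrec.unpair)
  have hy : RTot {orc Y} (fun n => (Nat.unpair (Nat.unpair n).2).1) :=
    (RTot.primrec hfst).comp (RTot.primrec hsnd)
  have hi : RTot {orc Y} (fun n => (Nat.unpair (Nat.unpair n).2).2) :=
    (RTot.primrec hsnd).comp (RTot.primrec hsnd)
  have hh : RTot {orc Y} (fun n => hp ((Nat.unpair (Nat.unpair n).2).2,
      (Y (ℓ + (Nat.unpair (Nat.unpair n).2).1)).toNat)) := by
    have h1 := (RTot.primrec (O := {orc Y}) hhp').comp
      (hi.pair (ho.comp ((RTot.primrec hplus).comp hy)))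
    simpa only [Nat.unpair_pair] using h1
  have hf : RTot {orc Y} (fun _ => encode ([] : List Bool)) :=
    RTot.primrec (Nat.Primrec.const _)
  have hz : RTot {orc Y} (fun _ => 0) := RTot.primrec (Nat.Primrec.const _)
  have hrec := (RTot.prec hf hh).comp (hz.pair RTot.id)
  simp only [Nat.unpair_pair] at hrec
  have heq : (fun t => encode (pre (fun j => Y (ℓ + j)) t)) = fun n => Nat.rec (encode ([] : List Bool))
      (fun y IH => hp (IH, (Y (ℓ + y)).toNat)) n := by
    funext t
    induction t with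
    | zero => rfl
    | succ t ih =>
      show encode (pre (fun j => Y (ℓ + j)) (t + 1)) = hp (_, (Y (ℓ + t)).toNat)
      rw [← ih]
      simp only [hp, encodek, Option.getD_some]
      congr 1
      unfold pre
      rw [List.range_succ, List.map_append]
      congr 1
      simp only [List.map_cons, List.map_nil, List.cons.injEq, and_true]
      cases Y (ℓ + t) <;> rfl
  rw [heq]
  exact hrec

/-- legitimate difference lists: after position `ℓ`, at most a `1/K` proportion of errors. -/
def okd (ℓ K : ℕ) (d : List Bool) : Prop :=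
  ∀ j ∈ List.range (d.length + 1), K * ((d.take j).filter (fun b => b = true)).length ≤ ℓ + j

instance (ℓ K : ℕ) (d : List Bool) : Decidable (okd ℓ K d) := by unfold okd; infer_instance

lemma okd_primrec (ℓ K : ℕ) : PrimrecPred (okd ℓ K) := by
  have hfil : Primrec fun L : List Bool => L.filter (fun b => b = true) :=
    Primrec.listFilter (p := fun b : Bool => b = true)
      (Primrec.eq.comp Primrec.id (Primrec.const true))
  have hR : PrimrecRel fun (j : ℕ) (d : List Bool) =>
      K * ((d.take j).filter (fun b => b = true)).length ≤ ℓ + j := by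
    refine Primrec.nat_le.comp ?_ ?_
    · refine Primrec.nat_mul.comp (Primrec.const K) (Primrec.list_length.comp ?_)
      exact hfil.comp (Primrec.list_take.comp Primrec.fst Primrec.snd)
    · exact Primrec.nat_add.comp (Primrec.const ℓ) Primrec.fst
  exact hR.forall_mem_list.comp (Primrec.list_range.comp (Primrec.succ.comp Primrec.list_length))
    Primrec.id

def tauL (σ y d : List Bool) : List Bool :=
  σ ++ (List.range d.length).map (fun j => xor (y.getD j false) (d.getD j false))

def tau (b₀ : ℕ → Bool) (ℓ : ℕ) (Y : ℕ → Bool) (d : List Bool) : List Bool :=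
  pre b₀ ℓ ++ (List.range d.length).map (fun j => xor (Y (ℓ + j)) (d.getD j false))

lemma tauL_eq (b₀ : ℕ → Bool) (ℓ : ℕ) (Y : ℕ → Bool) (d : List Bool) (t : ℕ)
    (ht : d.length ≤ t) :
    tauL (pre b₀ ℓ) (pre (fun j => Y (ℓ + j)) t) d = tau b₀ ℓ Y d := by
  unfold tauL tau
  congr 1
  apply List.map_congr_left
  intro j hj
  rw [List.mem_range] at hj
  congr 1
  unfold pre
  rw [List.getD_eq_getElem?_getD]
  simp [show j < t by omega]

lemma tauL_primrec (σ : List Bool) : Primrec fun p : List Bool × List Bool => tauL σ p.1 p.2 := by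
  unfold tauL
  refine Primrec.list_append.comp (Primrec.const σ) ?_
  have hx : Primrec fun q : Bool × Bool => xor q.1 q.2 :=
    Primrec.dom_finite (fun q : Bool × Bool => xor q.1 q.2)
  have h1 : Primrec fun q : (List Bool × List Bool) × ℕ => q.1.1.getD q.2 false :=
    (Primrec.list_getD false).comp (Primrec.fst.comp Primrec.fst) Primrec.snd
  have h2 : Primrec fun q : (List Bool × List Bool) × ℕ => q.1.2.getD q.2 false :=
    (Primrec.list_getD false).comp (Primrec.snd.comp Primrec.fst) Primrec.snd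
  have h3 : Primrec₂ fun (p : List Bool × List Bool) (j : ℕ) =>
      xor (p.1.getD j false) (p.2.getD j false) := hx.comp (h1.pair h2)
  exact Primrec.list_map (Primrec.list_range.comp (Primrec.list_length.comp Primrec.snd)) h3

/-- Key dichotomy. -/
theorem dichotomy (E : List Bool → ℕ →. ℕ) (hE : Partrec₂ E) (Y A₀ b₀ : ℕ → Bool) (ℓ K : ℕ)
    (hA : ¬ Nat.RecursiveIn {orc Y} (orc A₀)) :
    (∃ d, okd ℓ K d ∧ ∃ k v, v ∈ E (tau b₀ ℓ Y d) k ∧ v ≠ (A₀ k).toNat) ∨
    (∃ k, ∀ d, okd ℓ K d → ∀ v, v ∉ E (tau b₀ ℓ Y d) k) := by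
  by_contra hcon
  push Not at hcon
  obtain ⟨hval, hex⟩ := hcon
  apply hA
  obtain ⟨c, hc⟩ := Nat.Partrec.Code.exists_code.1 hE
  have hceval : ∀ τ k v, v ∈ c.eval (encode (τ, k)) ↔ v ∈ E τ k := by
    intro τ k v
    rw [hc]
    simp
  -- the search function
  let G : List Bool × ℕ × ℕ → Option ℕ := fun q =>
    (decode q.2.2 : Option (List Bool × ℕ)).bind fun r =>
      if okd ℓ K r.1 ∧ r.1.length ≤ q.2.2 then
        c.evaln r.2 (encode (tauL (pre b₀ ℓ) q.1 r.1, q.2.1)) else none
  have hG : Primrec G := by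
    refine Primrec.option_bind (Primrec.decode.comp (Primrec.snd.comp Primrec.snd)) ?_
    refine Primrec.ite (((okd_primrec ℓ K).comp (Primrec.fst.comp Primrec.snd)).and
      (Primrec.nat_le.comp (Primrec.list_length.comp (Primrec.fst.comp Primrec.snd))
        (Primrec.snd.comp (Primrec.snd.comp Primrec.fst)))) ?_
      (Primrec.const none)
    refine Nat.Partrec.Code.primrec_evaln.comp (Primrec.pair (Primrec.pair
      (Primrec.snd.comp Primrec.snd) (Primrec.const c)) ?_)
    refine Primrec.encode.comp (Primrec.pair ?_ ?_)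
    · exact (tauL_primrec _).comp (Primrec.pair (Primrec.fst.comp Primrec.fst)
        (Primrec.fst.comp Primrec.snd))
    · exact Primrec.fst.comp (Primrec.snd.comp Primrec.fst)
  let G' : ℕ → ℕ := fun n => encode ((decode n : Option (List Bool × ℕ × ℕ)).map G)
  have hG' : Nat.Primrec G' := hG
  have hG'val : ∀ y k t, G' (Nat.pair (encode y) (Nat.pair k t)) =
      Nat.succ (encode (G (y, k, t))) := by
    intro y k t
    have : Nat.pair (encode y) (Nat.pair k t) = encode (y, k, t) := rfl
    simp only [G', this, encodek, Option.map_some, encode_some]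
  have hpre := RTot.oraclePre Y ℓ
  have hsnd : Nat.Primrec (fun n => (Nat.unpair n).2) :=
    Primrec.nat_iff.1 (Primrec.snd.comp Primrec.unpair)
  let val : ℕ → ℕ := fun n => G' (Nat.pair (encode (pre (fun j => Y (ℓ + j)) (Nat.unpair n).2)) n)
  have hvalR : RTot {orc Y} val :=
    (RTot.primrec hG').comp ((hpre.comp (RTot.primrec hsnd)).pair RTot.id)
  have hvalval : ∀ k t, val (Nat.pair k t) =
      Nat.succ (encode (G (pre (fun j => Y (ℓ + j)) t, k, t))) := by
    intro k t
    simp only [val, Nat.unpair_pair]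
    exact hG'val _ _ _
  have htest : RTot {orc Y} (fun n => 2 - val n) := by
    have : Nat.Primrec (fun n => 2 - n) :=
      Primrec.nat_iff.1 (Primrec.nat_sub.comp (Primrec.const 2) Primrec.id)
    exact (RTot.primrec this).comp hvalR
  have hout : RTot {orc Y} (fun n => val n - 2) := by
    have : Nat.Primrec (fun n => n - 2) :=
      Primrec.nat_iff.1 (Primrec.nat_sub.comp Primrec.id (Primrec.const 2))
    exact (RTot.primrec this).comp hvalR
  have hfind := Nat.RecursiveIn.rfind htest
  have hidp := Nat.RecursiveIn.pair (RTot.id (O := {orc Y})) hfind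
  have hfinal := Nat.RecursiveIn.comp hout hidp
  refine hfinal.of_eq fun k => ?_
  -- evaluate
  obtain ⟨d, hd, v, hv⟩ := hex k
  have hvc := (hceval _ _ _).2 hv
  obtain ⟨s, hs⟩ := Nat.Partrec.Code.evaln_complete.1 hvc
  have hfound : ∀ t, 2 - val (Nat.pair k t) = 0 → val (Nat.pair k t) - 2 = (A₀ k).toNat := by
    intro t ht
    rw [hvalval] at ht ⊢
    rcases hGt : G (pre (fun j => Y (ℓ + j)) t, k, t) with _ | w
    · rw [hGt] at ht
      simp at ht
    · have h1 : w = (A₀ k).toNat := by
        simp only [G, Option.bind_eq_some_iff] at hGt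
        obtain ⟨⟨d', s'⟩, hdec, hif⟩ := hGt
        split_ifs at hif with hok
        have h2 := Nat.Partrec.Code.evaln_sound hif
        have hlen : d'.length ≤ t := hok.2
        rw [tauL_eq _ _ _ _ _ hlen] at h2
        exact hval d' hok.1 k w ((hceval _ _ _).1 h2)
      rw [← h1]
      simp
  have hexists : ∃ t, 2 - val (Nat.pair k t) = 0 := by
    refine ⟨encode (d, s), ?_⟩
    rw [hvalval]
    have hlen : d.length ≤ encode (d, s) :=
      (Encodable.length_le_encode d).trans (Nat.left_le_pair _ _)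
    have : G (pre (fun j => Y (ℓ + j)) (encode (d, s)), k, encode (d, s)) = some v := by
      simp only [G, encodek, Option.bind_some]
      rw [if_pos ⟨hd, hlen⟩]
      rw [tauL_eq _ _ _ _ _ hlen]
      exact hs
    rw [this]
    simp
  classical
  have hr : Nat.find hexists ∈ Nat.rfind (fun n => (fun m => decide (m = 0)) <$>
      (Part.some (2 - val (Nat.pair k n)))) := by
    refine Nat.mem_rfind.2 ⟨(Part.mem_map_iff _).2 ⟨_, Part.mem_some _, ?_⟩, fun {j} hj => ?_⟩
    · simpa using Nat.find_spec hexists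
    · refine (Part.mem_map_iff _).2 ⟨_, Part.mem_some _, ?_⟩
      simpa using Nat.find_min hexists hj
  refine Part.eq_some_iff.2 (Part.mem_bind_iff.2 ⟨Nat.pair k (Nat.find hexists), ?_, ?_⟩)
  · exact Part.mem_bind_iff.2 ⟨Nat.pair k, (Part.mem_map_iff _).2 ⟨k, Part.mem_some k, rfl⟩,
      (Part.mem_map_iff _).2 ⟨_, hr, rfl⟩⟩
  · rw [← hfound _ (Nat.find_spec hexists)]
    exact Part.mem_some _

/-! ### Part 3 -/

/-- number of disagreements in `[ℓ, m)` -/
def errI (ℓ : ℕ) (a b : ℕ → Bool) (m : ℕ) : ℕ := ((Finset.Ico ℓ m).filter (fun i => a i ≠ b i)).card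

def err (a b : ℕ → Bool) (m : ℕ) : ℕ := errI 0 a b m

lemma errI_triangle (ℓ : ℕ) (a b c : ℕ → Bool) (m : ℕ) :
    errI ℓ a c m ≤ errI ℓ a b m + errI ℓ b c m := by
  unfold errI
  refine (Finset.card_le_card (t := (Finset.Ico ℓ m).filter (fun i => a i ≠ b i) ∪
    (Finset.Ico ℓ m).filter (fun i => b i ≠ c i)) ?_).trans (Finset.card_union_le _ _)
  intro i hi
  simp only [Finset.mem_filter, Finset.mem_union] at hi ⊢
  by_cases h : a i = b i
  · right; exact ⟨hi.1, fun h2 => hi.2 (h.trans h2)⟩
  · left; exact ⟨hi.1, h⟩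

lemma errI_comm (ℓ : ℕ) (a b : ℕ → Bool) (m : ℕ) : errI ℓ a b m = errI ℓ b a m := by
  unfold errI
  simp only [ne_comm]

lemma errI_le_err (ℓ : ℕ) (a b : ℕ → Bool) (m : ℕ) : errI ℓ a b m ≤ err a b m := by
  unfold err errI
  apply Finset.card_le_card
  apply Finset.filter_subset_filter
  exact Finset.Ico_subset_Ico_left (Nat.zero_le _)

lemma err_split (ℓ : ℕ) (a b : ℕ → Bool) (m : ℕ) : err a b m ≤ err a b ℓ + errI ℓ a b m := by
  unfold err errI
  refine (Finset.card_le_card (t := (Finset.Ico 0 ℓ).filter (fun i => a i ≠ b i) ∪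
    (Finset.Ico ℓ m).filter (fun i => a i ≠ b i)) ?_).trans (Finset.card_union_le _ _)
  intro i hi
  simp only [Finset.mem_filter, Finset.mem_union, Finset.mem_Ico] at hi ⊢
  by_cases h : i < ℓ
  · left; exact ⟨⟨by omega, h⟩, hi.2⟩
  · right; exact ⟨⟨by omega, by omega⟩, hi.2⟩

lemma errI_congr {ℓ : ℕ} {a a' b : ℕ → Bool} {m : ℕ} (h : ∀ i, ℓ ≤ i → i < m → a i = a' i) :
    errI ℓ a b m = errI ℓ a' b m := by
  unfold errI
  congr 1
  apply Finset.filter_congr
  intro i hi
  rw [Finset.mem_Ico] at hi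
  rw [h i hi.1 hi.2]

lemma errI_zero {ℓ : ℕ} {a b : ℕ → Bool} {m : ℕ} (h : ∀ i, ℓ ≤ i → i < m → a i = b i) :
    errI ℓ a b m = 0 := by
  unfold errI
  rw [Finset.card_eq_zero, Finset.filter_eq_empty_iff]
  intro i hi
  rw [Finset.mem_Ico] at hi
  simp [h i hi.1 hi.2]

def dlist (c : ℕ → Bool) (ℓ : ℕ) (Y : ℕ → Bool) (L : ℕ) : List Bool :=
  (List.range L).map (fun j => xor (Y (ℓ + j)) (c (ℓ + j)))

lemma dlist_length (c : ℕ → Bool) (ℓ : ℕ) (Y : ℕ → Bool) (L : ℕ) :
    (dlist c ℓ Y L).length = L := by simp [dlist]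

lemma dlist_take (c : ℕ → Bool) (ℓ : ℕ) (Y : ℕ → Bool) (L j : ℕ) (hj : j ≤ L) :
    (dlist c ℓ Y L).take j = dlist c ℓ Y j := by
  unfold dlist
  rw [← List.map_take, List.take_range, min_eq_left hj]

lemma dlist_count (c : ℕ → Bool) (ℓ : ℕ) (Y : ℕ → Bool) (j : ℕ) :
    ((dlist c ℓ Y j).filter (fun b => b = true)).length = errI ℓ c Y (ℓ + j) := by
  induction j with
  | zero => simp [dlist, errI]
  | succ j ih =>
    have h1 : dlist c ℓ Y (j + 1) = dlist c ℓ Y j ++ [xor (Y (ℓ + j)) (c (ℓ + j))] := by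
      unfold dlist
      rw [List.range_succ, List.map_append]
      rfl
    rw [h1, List.filter_append, List.length_append, ih]
    unfold errI
    have h2 : Finset.Ico ℓ (ℓ + (j + 1)) = insert (ℓ + j) (Finset.Ico ℓ (ℓ + j)) := by
      ext i
      simp only [Finset.mem_Ico, Finset.mem_insert]
      omega
    rw [h2, Finset.filter_insert]
    by_cases h : c (ℓ + j) = Y (ℓ + j)
    · rw [if_neg (by simp [h])]
      simp [h]
    · rw [if_pos h, Finset.card_insert_of_notMem (by simp)]
      congr 1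
      cases h3 : Y (ℓ + j) <;> cases h4 : c (ℓ + j) <;> simp_all

lemma okd_dlist {c : ℕ → Bool} {ℓ K : ℕ} {Y : ℕ → Bool} {L : ℕ} :
    okd ℓ K (dlist c ℓ Y L) ↔ ∀ m, ℓ ≤ m → m ≤ ℓ + L → K * errI ℓ c Y m ≤ m := by
  unfold okd
  rw [dlist_length]
  constructor
  · intro h m h1 h2
    have := h (m - ℓ) (by rw [List.mem_range]; omega)
    rw [dlist_take _ _ _ _ _ (by omega), dlist_count] at this
    rwa [show ℓ + (m - ℓ) = m by omega] at this
  · intro h j hj
    rw [List.mem_range] at hj
    rw [dlist_take _ _ _ _ _ (by omega), dlist_count]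
    exact h _ (by omega) (by omega)

lemma tau_dlist (b₀ c : ℕ → Bool) (ℓ : ℕ) (Y : ℕ → Bool) (L : ℕ) (h : ∀ i < ℓ, c i = b₀ i) :
    tau b₀ ℓ Y (dlist c ℓ Y L) = pre c (ℓ + L) := by
  unfold tau pre
  rw [List.range_add, List.map_append, dlist_length]
  congr 1
  · apply List.map_congr_left
    intro i hi
    rw [List.mem_range] at hi
    exact (h i hi).symm
  · rw [List.map_map]
    apply List.map_congr_left
    intro j hj
    rw [List.mem_range] at hj
    simp only [dlist, List.getD_eq_getElem?_getD, Function.comp]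
    simp [hj]

/-- one step of the construction -/
lemma step (X A₀ : ℕ → Bool)
    (hX : ∀ K : ℕ, ∃ Y : ℕ → Bool, ¬ Nat.RecursiveIn {orc Y} (orc A₀) ∧
      ∃ M, ∀ m ≥ M, 2 * K * err X Y m ≤ m)
    (E : List Bool → ℕ →. ℕ) (hE : Partrec₂ E) (K : ℕ) (b : ℕ → Bool) (n : ℕ)
    (hb : ∀ i, n ≤ i → b i = X i) :
    ∃ (b' : ℕ → Bool) (n' ℓ : ℕ) (Y : ℕ → Bool), (∀ i, n' ≤ i → b' i = X i) ∧
      n + 1 ≤ ℓ ∧ ℓ ≤ n' ∧ K * err b X ℓ ≤ ℓ ∧ (∀ i < ℓ, b' i = b i) ∧
      (∀ m, ℓ ≤ m → 2 * K * err X Y m ≤ m) ∧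
      (∀ m, ℓ ≤ m → m ≤ n' → K * errI ℓ b' Y m ≤ m) ∧
      ((∃ k v, v ∈ E (pre b' n') k ∧ v ≠ (A₀ k).toNat) ∨
        (n' = ℓ ∧ ∃ k, ∀ (c : ℕ → Bool) (m : ℕ), ℓ ≤ m → (∀ i < ℓ, c i = b i) →
          (∀ m', ℓ ≤ m' → m' ≤ m → K * errI ℓ c Y m' ≤ m') → ∀ v, v ∉ E (pre c m) k)) := by
  obtain ⟨Y, hY, M, hM⟩ := hX K
  set ℓ := max (max M (n + 1)) (K * err b X n) with hℓ
  have hℓ1 : M ≤ ℓ := (le_max_left _ _).trans (le_max_left _ _)
  have hℓ2 : n + 1 ≤ ℓ := (le_max_right _ _).trans (le_max_left _ _)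
  have hℓ3 : K * err b X n ≤ ℓ := le_max_right _ _
  have herr : K * err b X ℓ ≤ ℓ := by
    have h1 := err_split n b X ℓ
    rw [errI_zero (fun i hi _ => hb i hi), add_zero] at h1
    exact (Nat.mul_le_mul_left K h1).trans hℓ3
  rcases dichotomy E hE Y A₀ b ℓ K hY with ⟨d, hd, k, v, hv, hne⟩ | ⟨k, hk⟩
  · let b' : ℕ → Bool := fun i => if i < ℓ then b i else
      if i < ℓ + d.length then xor (Y i) (d.getD (i - ℓ) false) else X i
    have hb' : ∀ i < ℓ, b' i = b i := fun i hi => by simp [b', hi]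
    have hdd : dlist b' ℓ Y d.length = d := by
      unfold dlist
      apply List.ext_getElem
      · simp
      · intro j h1 h2
        simp only [List.getElem_map, List.getElem_range]
        have : b' (ℓ + j) = xor (Y (ℓ + j)) (d.getD j false) := by
          simp only [b']
          rw [if_neg (by omega), if_pos (by omega)]
          congr 2
          omega
        rw [this, List.getD_eq_getElem?_getD]
        simp [h2]
    refine ⟨b', ℓ + d.length, ℓ, Y, ?_, hℓ2, by omega, herr, hb', fun m hm => hM m (hℓ1.trans hm),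
      ?_, Or.inl ⟨k, v, ?_, hne⟩⟩
    · intro i hi
      simp only [b']
      rw [if_neg (by omega), if_neg (by omega)]
    · rw [← hdd] at hd
      exact okd_dlist.1 hd
    · rw [← tau_dlist b b' ℓ Y d.length hb', hdd]
      exact hv
  · refine ⟨b, ℓ, ℓ, Y, fun i hi => hb i (by omega), hℓ2, le_rfl, herr, fun _ _ => rfl,
      fun m hm => hM m (hℓ1.trans hm), ?_, Or.inr ⟨rfl, k, ?_⟩⟩
    · intro m h1 h2
      have : m = ℓ := by omega
      subst this
      simp [errI]
    · intro c m hm hc hleg v hv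
      have h1 : okd ℓ K (dlist c ℓ Y (m - ℓ)) := okd_dlist.2 fun m' h1 h2 => hleg m' h1 (by omega)
      apply hk _ h1 v
      rw [tau_dlist b c ℓ Y (m - ℓ) hc, show ℓ + (m - ℓ) = m by omega]
      exact hv

/-- the `e`-th functional -/
def EE (e : ℕ) : List Bool → ℕ →. ℕ := fun τ k =>
  (Denumerable.ofNat Nat.Partrec.Code e).eval (encode (τ, k))

lemma EE_partrec (e : ℕ) : Partrec₂ (EE e) := by
  have : Partrec fun p : List Bool × ℕ =>
      (Denumerable.ofNat Nat.Partrec.Code e).eval (encode p) :=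
    Nat.Partrec.Code.eval_part.comp (Computable.const _) Computable.encode
  exact this

lemma EE_surj {E : List Bool → ℕ →. ℕ} (hE : Partrec₂ E) : ∃ e, EE e = E := by
  obtain ⟨c, hc⟩ := Nat.Partrec.Code.exists_code.1 hE
  refine ⟨encode c, ?_⟩
  funext τ k
  unfold EE
  rw [Denumerable.ofNat_encode, hc]
  ext v
  simp

theorem construct (X A₀ : ℕ → Bool)
    (hX : ∀ K : ℕ, ∃ Y : ℕ → Bool, ¬ Nat.RecursiveIn {orc Y} (orc A₀) ∧
      ∃ M, ∀ m ≥ M, 2 * K * err X Y m ≤ m) :
    ∃ B : ℕ → Bool, (∀ K : ℕ, ∃ M, ∀ m ≥ M, K * err B X m ≤ m) ∧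
      ¬ Nat.RecursiveIn {orc B} (orc A₀) := by
  have hstep : ∀ (s : ℕ) (p : {p : (ℕ → Bool) × ℕ // ∀ i, p.2 ≤ i → p.1 i = X i}),
      ∃ (q : {p : (ℕ → Bool) × ℕ // ∀ i, p.2 ≤ i → p.1 i = X i}) (ℓ : ℕ) (Y : ℕ → Bool),
      p.1.2 + 1 ≤ ℓ ∧ ℓ ≤ q.1.2 ∧ 8 ^ s * err p.1.1 X ℓ ≤ ℓ ∧ (∀ i < ℓ, q.1.1 i = p.1.1 i) ∧
      (∀ m, ℓ ≤ m → 2 * 8 ^ s * err X Y m ≤ m) ∧
      (∀ m, ℓ ≤ m → m ≤ q.1.2 → 8 ^ s * errI ℓ q.1.1 Y m ≤ m) ∧
      ((∃ k v, v ∈ EE s (pre q.1.1 q.1.2) k ∧ v ≠ (A₀ k).toNat) ∨
        (q.1.2 = ℓ ∧ ∃ k, ∀ (c : ℕ → Bool) (m : ℕ), ℓ ≤ m → (∀ i < ℓ, c i = p.1.1 i) →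
          (∀ m', ℓ ≤ m' → m' ≤ m → 8 ^ s * errI ℓ c Y m' ≤ m') → ∀ v, v ∉ EE s (pre c m) k)) := by
    intro s p
    obtain ⟨b', n', ℓ, Y, h1, h2, h3, h4, h5, h6, h7, h8⟩ :=
      step X A₀ hX (EE s) (EE_partrec s) (8 ^ s) p.1.1 p.1.2 p.2
    exact ⟨⟨(b', n'), h1⟩, ℓ, Y, h2, h3, h4, h5, h6, h7, h8⟩
  choose nxt L YY h1 h2 h3 h4 h5 h6 h7 using hstep
  let st : ℕ → {p : (ℕ → Bool) × ℕ // ∀ i, p.2 ≤ i → p.1 i = X i} := fun s =>
    Nat.rec ⟨(X, 0), fun _ _ => rfl⟩ (fun s p => nxt s p) s
  have hst : ∀ s, st (s + 1) = nxt s (st s) := fun s => rfl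
  let b : ℕ → ℕ → Bool := fun s => (st s).1.1
  let n : ℕ → ℕ := fun s => (st s).1.2
  let ℓ : ℕ → ℕ := fun s => L s (st s)
  let Y : ℕ → ℕ → Bool := fun s => YY s (st s)
  have a0 : ∀ s i, n s ≤ i → b s i = X i := fun s => (st s).2
  have a1 : ∀ s, n s + 1 ≤ ℓ s := fun s => h1 s (st s)
  have a2 : ∀ s, ℓ s ≤ n (s + 1) := fun s => h2 s (st s)
  have a3 : ∀ s, 8 ^ s * err (b s) X (ℓ s) ≤ ℓ s := fun s => h3 s (st s)
  have a4 : ∀ s, ∀ i < ℓ s, b (s + 1) i = b s i := fun s => h4 s (st s)
  have a5 : ∀ s m, ℓ s ≤ m → 2 * 8 ^ s * err X (Y s) m ≤ m := fun s => h5 s (st s)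
  have a6 : ∀ s m, ℓ s ≤ m → m ≤ n (s + 1) → 8 ^ s * errI (ℓ s) (b (s + 1)) (Y s) m ≤ m :=
    fun s => h6 s (st s)
  have a7 : ∀ s, (∃ k v, v ∈ EE s (pre (b (s + 1)) (n (s + 1))) k ∧ v ≠ (A₀ k).toNat) ∨
        (n (s + 1) = ℓ s ∧ ∃ k, ∀ (c : ℕ → Bool) (m : ℕ), ℓ s ≤ m → (∀ i < ℓ s, c i = b s i) →
          (∀ m', ℓ s ≤ m' → m' ≤ m → 8 ^ s * errI (ℓ s) c (Y s) m' ≤ m') →
          ∀ v, v ∉ EE s (pre c m) k) := fun s => h7 s (st s)
  clear_value b n ℓ Y
  clear h1 h2 h3 h4 h5 h6 h7 hst
  have hns : ∀ s, s ≤ n s := by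
    intro s
    induction s with
    | zero => exact Nat.zero_le _
    | succ s ih => have := a1 s; have := a2 s; omega
  have hℓs : ∀ s, s + 1 ≤ ℓ s := fun s => by have := hns s; have := a1 s; omega
  have hℓlt : ∀ s, ℓ s < ℓ (s + 1) := fun s => by have := a1 (s + 1); have := a2 s; omega
  have hℓmono : StrictMono ℓ := strictMono_nat_of_lt_succ hℓlt
  have stab : ∀ s t, s ≤ t → ∀ i < ℓ s, b t i = b s i := by
    intro s t hst
    induction t, hst using Nat.le_induction with
    | base => intro i _; rfl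
    | succ t ht ih =>
      intro i hi
      rw [a4 t i (lt_of_lt_of_le hi (hℓmono.monotone ht)), ih i hi]
  let B : ℕ → Bool := fun i => b i i
  have agree : ∀ s i, i < ℓ s → B i = b s i := by
    intro s i hi
    rcases le_total s i with h | h
    · exact stab s i h i hi
    · exact (stab i s h i (by have := hℓs i; omega)).symm
  have agree' : ∀ s i, i < n (s + 1) → B i = b (s + 1) i := fun s i hi =>
    agree (s + 1) i (by have := a1 (s + 1); omega)
  -- error bound
  have e1 : ∀ s m, ℓ s ≤ m → m ≤ n (s + 1) → 2 * 8 ^ s * err B X m ≤ 5 * m := by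
    intro s m hm1 hm2
    have c1 := err_split (ℓ s) B X m
    have c2 : err B X (ℓ s) = err (b s) X (ℓ s) := errI_congr fun i _ hi => agree s i hi
    have c3 := errI_triangle (ℓ s) B (Y s) X m
    have c4 : errI (ℓ s) B (Y s) m = errI (ℓ s) (b (s + 1)) (Y s) m :=
      errI_congr fun i _ hi => agree' s i (by omega)
    have c5 := a6 s m hm1 hm2
    have c6 : errI (ℓ s) (Y s) X m ≤ err X (Y s) m := by
      rw [errI_comm]; exact errI_le_err _ _ _ _
    have c7 := a5 s m hm1
    have c8 := a3 s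
    rw [c2] at c1
    rw [c4] at c3
    have c9 : err B X m ≤ err (b s) X (ℓ s) + (errI (ℓ s) (b (s + 1)) (Y s) m + err X (Y s) m) := by
      omega
    calc 2 * 8 ^ s * err B X m ≤ 2 * 8 ^ s * (err (b s) X (ℓ s) +
          (errI (ℓ s) (b (s + 1)) (Y s) m + err X (Y s) m)) := Nat.mul_le_mul_left _ c9
      _ = 2 * (8 ^ s * err (b s) X (ℓ s)) + (2 * (8 ^ s * errI (ℓ s) (b (s + 1)) (Y s) m) +
          2 * 8 ^ s * err X (Y s) m) := by ring
      _ ≤ 2 * ℓ s + (2 * m + m) := by omega
      _ ≤ 5 * m := by omega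
  have e2 : ∀ s m, ℓ s ≤ m → m < ℓ (s + 1) → 2 * 8 ^ s * err B X m ≤ 5 * m := by
    intro s m hm1 hm2
    rcases le_total m (n (s + 1)) with h | h
    · exact e1 s m hm1 h
    · have c1 := err_split (n (s + 1)) B X m
      have c2 : errI (n (s + 1)) B X m = 0 := errI_zero fun i hi1 hi2 => by
        rw [agree (s + 1) i (by omega), a0 (s + 1) i hi1]
      rw [c2, add_zero] at c1
      have c3 := e1 s (n (s + 1)) (a2 s) le_rfl
      calc 2 * 8 ^ s * err B X m ≤ 2 * 8 ^ s * err B X (n (s + 1)) := Nat.mul_le_mul_left _ c1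
        _ ≤ 5 * n (s + 1) := c3
        _ ≤ 5 * m := by omega
  have e3 : ∀ s m, ℓ s ≤ m → 2 * 8 ^ s * err B X m ≤ 5 * m := by
    intro s m hm
    have hex : ∃ t, m < ℓ t := ⟨m, by have := hℓs m; omega⟩
    classical
    obtain ⟨t, ht⟩ : ∃ t, t + 1 = Nat.find hex := by
      have : Nat.find hex ≠ 0 := by
        intro h0
        have := Nat.find_spec hex
        rw [h0] at this
        have := hℓmono.monotone (Nat.zero_le s)
        omega
      exact ⟨Nat.find hex - 1, by omega⟩
    have ht1 : m < ℓ (t + 1) := by rw [ht]; exact Nat.find_spec hex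
    have ht2 : ℓ t ≤ m := by
      have := Nat.find_min hex (m := t) (by omega)
      omega
    have hst : s ≤ t := by
      by_contra h
      have : ℓ (t + 1) ≤ ℓ s := hℓmono.monotone (by omega)
      omega
    have hpow : 8 ^ s ≤ 8 ^ t := Nat.pow_le_pow_right (by norm_num) hst
    calc 2 * 8 ^ s * err B X m ≤ 2 * 8 ^ t * err B X m :=
          Nat.mul_le_mul_right _ (Nat.mul_le_mul_left _ hpow)
      _ ≤ 5 * m := e2 t m ht2 ht1
  refine ⟨B, ?_, ?_⟩
  · intro K
    obtain ⟨s, hs⟩ : ∃ s : ℕ, 5 * K ≤ 2 * 8 ^ s := by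
      refine ⟨K, ?_⟩
      have h1 : K < 2 ^ K := Nat.lt_two_pow_self
      have h2 : 8 ^ K = 2 ^ K * 4 ^ K := by rw [← Nat.mul_pow]
      rcases Nat.eq_zero_or_pos K with h0 | h0
      · subst h0; simp
      · have h3 : 4 ≤ 4 ^ K := by
          calc 4 = 4 ^ 1 := by norm_num
            _ ≤ 4 ^ K := Nat.pow_le_pow_right (by norm_num) h0
        rw [h2]
        nlinarith
    refine ⟨ℓ s, fun m hm => ?_⟩
    have h1 := e3 s m hm
    have h2 : 5 * K * err B X m ≤ 2 * 8 ^ s * err B X m := Nat.mul_le_mul_right _ hs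
    have h3 : 5 * (K * err B X m) = 5 * K * err B X m := by ring
    omega
  · intro hrec
    obtain ⟨E, hE, mE, aE⟩ := exists_E hrec
    obtain ⟨s, rfl⟩ := EE_surj hE
    rcases a7 s with ⟨k, v, hv, hne⟩ | ⟨hn, k, hk⟩
    · have h1 : pre (b (s + 1)) (n (s + 1)) = pre B (n (s + 1)) := by
        unfold pre
        apply List.map_congr_left
        intro i hi
        rw [List.mem_range] at hi
        exact (agree' s i hi).symm
      rw [h1] at hv
      have h2 : v ∈ orc A₀ k := (aE k v).2 ⟨_, hv⟩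
      exact hne (Part.mem_some_iff.1 h2)
    · have h2 : (A₀ k).toNat ∈ orc A₀ k := Part.mem_some _
      obtain ⟨N, hN⟩ := (aE _ _).1 h2
      refine hk B (max N (ℓ s)) (le_max_right _ _) (fun i hi => agree s i hi) ?_ _
        (mono_pre mE (le_max_left _ _) hN)
      intro m' hm1 _
      have c1 := errI_triangle (ℓ s) B X (Y s) m'
      have c2 : errI (ℓ s) X (Y s) m' ≤ err X (Y s) m' := errI_le_err _ _ _ _
      have c3 := a5 s m' hm1
      have c4 : 2 * 8 ^ s * errI (ℓ s) B X m' ≤ m' := by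
        by_cases h : m' < ℓ (s + 1)
        · have : errI (ℓ s) B X m' = 0 := errI_zero fun i hi1 hi2 => by
            rw [agree (s + 1) i (by omega), a0 (s + 1) i (by omega)]
          rw [this]
          simp
        · have c5 := e3 (s + 1) m' (by omega)
          have c6 : 2 * 8 ^ s * errI (ℓ s) B X m' ≤ 2 * 8 ^ s * err B X m' :=
            Nat.mul_le_mul_left _ (errI_le_err _ _ _ _)
          have c7 : 2 * 8 ^ (s + 1) * err B X m' = 8 * (2 * 8 ^ s * err B X m') := by ring
          omega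
      have c8 : 2 * (8 ^ s * errI (ℓ s) B (Y s) m') ≤ 2 * m' := by
        calc 2 * (8 ^ s * errI (ℓ s) B (Y s) m') = 2 * 8 ^ s * errI (ℓ s) B (Y s) m' := by ring
          _ ≤ 2 * 8 ^ s * (errI (ℓ s) B X m' + err X (Y s) m') :=
              Nat.mul_le_mul_left _ (by omega)
          _ = 2 * 8 ^ s * errI (ℓ s) B X m' + 2 * 8 ^ s * err X (Y s) m' := by ring
          _ ≤ 2 * m' := by omega
      omega

/-! ### Part 4: robust coding -/

lemma errI_compl (ℓ : ℕ) (B : ℕ → Bool) (m : ℕ) :
    errI ℓ B (fun _ => true) m + errI ℓ B (fun _ => false) m = m - ℓ := by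
  unfold errI
  have h := Finset.card_filter_add_card_filter_not (s := Finset.Ico ℓ m) (fun i => B i ≠ true)
  rw [Nat.card_Ico] at h
  rw [← h]
  congr 2
  apply Finset.filter_congr
  intro i _
  cases B i <;> simp

/-- robust block coding of `A₀` -/
def code (A₀ : ℕ → Bool) : ℕ → Bool := fun i => A₀ (Nat.log 2 i)

lemma code_block (A₀ : ℕ → Bool) (n i : ℕ) (h1 : 2 ^ n ≤ i) (h2 : i < 2 ^ (n + 1)) :
    code A₀ i = A₀ n := by
  unfold code
  have h0 : i ≠ 0 := by
    have := Nat.one_le_two_pow (n := n)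
    omega
  rw [(Nat.log_eq_iff (Or.inr ⟨by norm_num, h0⟩)).2 ⟨h1, h2⟩]

lemma drop_pre (B : ℕ → Bool) (n : ℕ) :
    (pre B (2 ^ (n + 1))).drop (2 ^ n) = dlist B (2 ^ n) (fun _ => false) (2 ^ n) := by
  unfold pre dlist
  rw [show 2 ^ (n + 1) = 2 ^ n + 2 ^ n by ring, List.range_add, List.map_append,
    List.drop_left' (by simp)]
  rw [List.map_map]
  apply List.map_congr_left
  intro j _
  simp

theorem code_computes (A₀ B : ℕ → Bool) (M : ℕ) (hB : ∀ m ≥ M, 8 * err B (code A₀) m ≤ m) :
    Nat.RecursiveIn {orc B} (orc A₀) := by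
  -- the majority value is correct from `M` on
  have hmaj : ∀ n ≥ M, (if 2 ^ n < 2 * ((dlist B (2 ^ n) (fun _ => false) (2 ^ n)).filter
      (fun b => b = true)).length then 1 else 0) = (A₀ n).toNat := by
    intro n hn
    rw [dlist_count, show 2 ^ n + 2 ^ n = 2 ^ (n + 1) by ring]
    have h1 : n < 2 ^ n := Nat.lt_two_pow_self
    have h0 : (2 : ℕ) ^ (n + 1) = 2 * 2 ^ n := by ring
    have h2 := hB (2 ^ (n + 1)) (by omega)
    have h3 := errI_le_err (2 ^ n) B (code A₀) (2 ^ (n + 1))
    have h4 := errI_compl (2 ^ n) B (2 ^ (n + 1))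
    rcases hA : A₀ n with _ | _
    · have h5 : errI (2 ^ n) B (fun _ => false) (2 ^ (n + 1)) =
          errI (2 ^ n) B (code A₀) (2 ^ (n + 1)) := by
        rw [errI_comm, errI_comm _ B]
        apply errI_congr
        intro i hi1 hi2
        rw [code_block A₀ n i hi1 hi2, hA]
      rw [if_neg (by omega)]
      rfl
    · have h5 : errI (2 ^ n) B (fun _ => true) (2 ^ (n + 1)) =
          errI (2 ^ n) B (code A₀) (2 ^ (n + 1)) := by
        rw [errI_comm, errI_comm _ B]
        apply errI_congr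
        intro i hi1 hi2
        rw [code_block A₀ n i hi1 hi2, hA]
      rw [if_pos (by omega)]
      rfl
  -- computability
  let G : List Bool × ℕ → ℕ := fun q =>
    if 2 ^ q.2 < 2 * ((q.1.drop (2 ^ q.2)).filter (fun b => b = true)).length then 1 else 0
  have hpow : Primrec fun n : ℕ => 2 ^ n := by
    have := (Primrec₂.unpaired'.1 Nat.Primrec.pow).comp (Primrec.const 2) Primrec.id
    exact this
  have hfil : Primrec fun L : List Bool => L.filter (fun b => b = true) :=
    Primrec.listFilter (p := fun b : Bool => b = true)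
      (Primrec.eq.comp Primrec.id (Primrec.const true))
  have hG : Primrec G := by
    refine Primrec.ite (Primrec.nat_lt.comp (hpow.comp Primrec.snd) ?_) (Primrec.const 1)
      (Primrec.const 0)
    refine Primrec.nat_mul.comp (Primrec.const 2) (Primrec.list_length.comp (hfil.comp ?_))
    exact Primrec.list_drop.comp (hpow.comp Primrec.snd) Primrec.fst
  let G' : ℕ → ℕ := fun n => encode ((decode n : Option (List Bool × ℕ)).map G)
  have hG' : Nat.Primrec G' := hG
  have hG'val : ∀ y k, G' (Nat.pair (encode y) k) = Nat.succ (G (y, k)) := by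
    intro y k
    have : Nat.pair (encode y) k = encode (y, k) := rfl
    simp only [G', this, encodek, Option.map_some, encode_some]
    rfl
  have hpre := RTot.oraclePre B 0
  have h2n : Nat.Primrec fun n : ℕ => 2 ^ (n + 1) :=
    Primrec.nat_iff.1 (hpow.comp Primrec.succ)
  have hg : RTot {orc B} (fun n => Nat.succ (G (pre B (2 ^ (n + 1)), n))) := by
    have h := (RTot.primrec hG').comp ((hpre.comp (RTot.primrec h2n)).pair RTot.id)
    simp only [hG'val, Nat.zero_add] at h
    exact h
  let table : List ℕ := (List.range M).map fun n => (A₀ n).toNat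
  have hfin : Primrec fun q : ℕ × ℕ => if q.1 < M then table.getD q.1 0 else q.2 - 1 := by
    refine Primrec.ite (Primrec.nat_lt.comp Primrec.fst (Primrec.const M)) ?_ ?_
    · exact (Primrec.list_getD 0).comp (Primrec.const table) Primrec.fst
    · exact Primrec.nat_sub.comp Primrec.snd (Primrec.const 1)
  have hfin' : Nat.Primrec fun n => if (Nat.unpair n).1 < M then table.getD (Nat.unpair n).1 0
      else (Nat.unpair n).2 - 1 := Primrec.nat_iff.1 (hfin.comp Primrec.unpair)
  have hfinal := (RTot.primrec hfin').comp (RTot.id.pair hg)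
  simp only [Nat.unpair_pair] at hfinal
  refine Nat.RecursiveIn.of_eq hfinal fun n => ?_
  unfold orc
  congr 1
  beta_reduce
  by_cases hn : n < M
  · rw [if_pos hn]
    simp [table, hn]
  · rw [if_neg hn]
    rw [← hmaj n (by omega), ← drop_pre]
    rfl

theorem exists_noncomputable :
    ∃ A₀ : ℕ → Bool, ¬ Nat.RecursiveIn {orc (fun _ => false)} (orc A₀) := by
  classical
  refine ⟨fun n => decide ((Denumerable.ofNat Nat.Partrec.Code n).eval 0).Dom, fun h => ?_⟩
  have h1 : Nat.Partrec (orc fun n => decide ((Denumerable.ofNat Nat.Partrec.Code n).eval 0).Dom) := by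
    refine Nat.RecursiveIn.partrec_of_oracle (fun g hg => ?_) h
    rw [Set.mem_singleton_iff.1 hg]
    exact Nat.Partrec.of_primrec (Nat.Primrec.const 0)
  apply ComputablePred.halting_problem 0
  rw [ComputablePred.computable_iff]
  refine ⟨fun c => decide (c.eval 0).Dom, ?_, ?_⟩
  · have h2 : Partrec (orc fun n => decide ((Denumerable.ofNat Nat.Partrec.Code n).eval 0).Dom) :=
      Partrec.nat_iff.2 h1
    have h3 : Computable fun n : ℕ =>
        (decide ((Denumerable.ofNat Nat.Partrec.Code n).eval 0).Dom).toNat := h2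
    have h4 : Computable fun c : Nat.Partrec.Code =>
        (decide (c.eval 0).Dom).toNat := by
      refine (h3.comp Computable.encode).of_eq fun c => ?_
      rw [Denumerable.ofNat_encode]
    have h5 : Computable fun m : ℕ => (m == 1) :=
      (Primrec.beq.comp Primrec.id (Primrec.const 1)).to_comp
    refine (h5.comp h4).of_eq fun c => ?_
    cases decide (c.eval 0).Dom <;> rfl
  · funext c
    simp


end Computability

/-- The relative density of `A` below `n`. -/
noncomputable def dens (A : Set ℕ) (n : ℕ) : ℝ := ((A ∩ Set.Iio n).ncard : ℝ) / n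

/-- Upper (asymptotic) density. -/
noncomputable def upperDensity (A : Set ℕ) : ℝ := limsup (dens A) atTop

/-- Coarse similarity: the symmetric difference has asymptotic density `0`. -/
def CoarselySimilar (A B : Set ℕ) : Prop := Tendsto (dens (symmDiff A B)) atTop (𝓝 0)

lemma dens_nonneg (A : Set ℕ) (n : ℕ) : 0 ≤ dens A n := by unfold dens; positivity

lemma finIio (A : Set ℕ) (n : ℕ) : (A ∩ Set.Iio n).Finite := (Set.finite_Iio n).inter_of_right A

lemma ncard_Iio (n : ℕ) : (Set.Iio n).ncard = n := by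
  have := Set.ncard_coe_finset (Finset.range n)
  rw [Finset.coe_range, Finset.card_range] at this
  exact this

lemma dens_le_one (A : Set ℕ) (n : ℕ) : dens A n ≤ 1 := by
  unfold dens
  apply div_le_one_of_le₀ _ (Nat.cast_nonneg _)
  have h1 : (A ∩ Set.Iio n).ncard ≤ (Set.Iio n).ncard :=
    Set.ncard_le_ncard Set.inter_subset_right (Set.finite_Iio n)
  rw [ncard_Iio] at h1
  exact_mod_cast h1

lemma bdd_above (A : Set ℕ) : IsBoundedUnder (· ≤ ·) atTop (dens A) :=
  isBoundedUnder_of ⟨1, dens_le_one A⟩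

lemma bdd_below (A : Set ℕ) : IsBoundedUnder (· ≥ ·) atTop (dens A) :=
  isBoundedUnder_of ⟨0, dens_nonneg A⟩

lemma upperDensity_nonneg (A : Set ℕ) : 0 ≤ upperDensity A := by
  refine le_limsup_of_frequently_le ?_ (bdd_above A)
  exact Frequently.of_forall fun n => dens_nonneg A n

lemma dens_union_le {A B C : Set ℕ} (h : A ⊆ B ∪ C) (n : ℕ) : dens A n ≤ dens B n + dens C n := by
  unfold dens
  rw [← add_div]
  apply div_le_div_of_nonneg_right _ (Nat.cast_nonneg _)
  have h1 : (A ∩ Set.Iio n).ncard ≤ ((B ∩ Set.Iio n) ∪ (C ∩ Set.Iio n)).ncard := by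
    refine Set.ncard_le_ncard ?_ ((finIio B n).union (finIio C n))
    intro x hx
    rcases h hx.1 with h' | h'
    · exact Or.inl ⟨h', hx.2⟩
    · exact Or.inr ⟨h', hx.2⟩
  have h2 := h1.trans (Set.ncard_union_le _ _)
  exact_mod_cast h2

lemma symmDiff_sub (A B C : Set ℕ) : symmDiff A C ⊆ symmDiff A B ∪ symmDiff B C := by
  intro x hx
  simp only [Set.mem_union, Set.mem_symmDiff] at hx ⊢
  tauto

lemma upperDensity_triangle (A B C : Set ℕ) :
    upperDensity (symmDiff A C) ≤ upperDensity (symmDiff A B) + upperDensity (symmDiff B C) := by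
  unfold upperDensity
  refine le_trans (limsup_le_limsup (Eventually.of_forall fun n =>
    dens_union_le (symmDiff_sub A B C) n) ?_ ?_) ?_
  · exact (bdd_below _).isCoboundedUnder_le
  · exact isBoundedUnder_of ⟨2, fun n => by
      have h1 := dens_le_one (symmDiff A B) n
      have h2 := dens_le_one (symmDiff B C) n
      show _ + _ ≤ (2 : ℝ)
      linarith⟩
  · exact limsup_add_le (bdd_below _) (bdd_above _) (bdd_below _).isCoboundedUnder_le (bdd_above _)

lemma coarselySimilar_iff {A B : Set ℕ} :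
    CoarselySimilar A B ↔ upperDensity (symmDiff A B) = 0 := by
  unfold CoarselySimilar upperDensity
  constructor
  · intro h; exact h.limsup_eq
  · intro h
    refine tendsto_of_le_liminf_of_limsup_le ?_ h.le (bdd_above _) (bdd_below _)
    refine le_liminf_of_le (bdd_above _).isCoboundedUnder_ge ?_
    exact Eventually.of_forall fun n => dens_nonneg _ n

/-- Coarse similarity as a setoid. -/
instance coarseSetoid : Setoid (Set ℕ) where
  r := CoarselySimilar
  iseqv := {
    refl := fun A => by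
      rw [coarselySimilar_iff, symmDiff_self]
      unfold upperDensity
      have : dens ⊥ = fun _ => 0 := by
        funext n
        simp [dens]
      rw [this]
      simp
    symm := fun {A B} h => by
      unfold CoarselySimilar at h ⊢
      rwa [symmDiff_comm]
    trans := fun {A B C} h1 h2 => by
      rw [coarselySimilar_iff] at h1 h2 ⊢
      have := upperDensity_triangle A B C
      rw [h1, h2, add_zero] at this
      exact le_antisymm this (upperDensity_nonneg _) }

/-- The space of coarse similarity classes. -/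
def CoarseSpace : Type := Quotient coarseSetoid

/-- The coarse similarity class of a set. -/
def coarseClass (A : Set ℕ) : CoarseSpace := Quotient.mk coarseSetoid A

/-- the distance `δ([A],[B])` = upper density of the symmetric difference. -/
noncomputable def coarseDist : CoarseSpace → CoarseSpace → ℝ :=
  Quotient.lift₂ (fun A B : Set ℕ => upperDensity (symmDiff A B)) (by
    intro A B A' B' hA hB
    have hA' : upperDensity (symmDiff A A') = 0 := coarselySimilar_iff.1 hA
    have hB' : upperDensity (symmDiff B B') = 0 := coarselySimilar_iff.1 hB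
    have h1 := upperDensity_triangle A A' B
    have h2 := upperDensity_triangle A' B' B
    have h3 := upperDensity_triangle A' A B'
    have h4 := upperDensity_triangle A B B'
    rw [symmDiff_comm B' B] at h2
    rw [symmDiff_comm A' A] at h3
    show upperDensity (symmDiff A B) = upperDensity (symmDiff A' B')
    linarith)

lemma coarseDist_mk (A B : Set ℕ) :
    coarseDist (coarseClass A) (coarseClass B) = upperDensity (symmDiff A B) := rfl

noncomputable instance : MetricSpace CoarseSpace where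
  dist := coarseDist
  dist_self := fun x => by
    induction x using Quotient.inductionOn with
    | h A => exact coarselySimilar_iff.1 (coarseSetoid.iseqv.refl A)
  dist_comm := fun x y => by
    induction x using Quotient.inductionOn with
    | h A =>
      induction y using Quotient.inductionOn with
      | h B =>
        show upperDensity (symmDiff A B) = upperDensity (symmDiff B A)
        rw [symmDiff_comm]
  dist_triangle := fun x y z => by
    induction x using Quotient.inductionOn with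
    | h A =>
      induction y using Quotient.inductionOn with
      | h B =>
        induction z using Quotient.inductionOn with
        | h C => exact upperDensity_triangle A B C
  eq_of_dist_eq_zero := fun {x y} => by
    induction x using Quotient.inductionOn with
    | h A =>
      induction y using Quotient.inductionOn with
      | h B =>
        intro h
        exact Quotient.sound (coarselySimilar_iff.2 h)

open Classical in
/-- The characteristic function of a set, as a (total) partial function. -/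
noncomputable def chi (A : Set ℕ) : ℕ →. ℕ := fun n => Part.some (if n ∈ A then 1 else 0)

/-- `U` is closed under Turing equivalence. -/
def TuringInvariant (U : Set (Set ℕ)) : Prop :=
  ∀ A B : Set ℕ, A ∈ U → TuringEquivalent (chi B) (chi A) → B ∈ U

/-- The subspace of the space of coarse similarity classes generated by `U`. -/
def generated (U : Set (Set ℕ)) : Set CoarseSpace := coarseClass '' U

/-! link between sets and `ℕ → Bool` -/

open Classical in
noncomputable def bf (A : Set ℕ) : ℕ → Bool := fun n => decide (n ∈ A)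

lemma chi_eq (A : Set ℕ) : chi A = orc (bf A) := by
  classical
  funext n
  unfold chi orc bf
  by_cases h : n ∈ A <;> simp [h]

lemma bf_setOf (a : ℕ → Bool) : bf {i | a i = true} = a := by
  funext n
  unfold bf
  simp

lemma dens_symmDiff (A B : Set ℕ) (m : ℕ) : dens (symmDiff A B) m = (err (bf A) (bf B) m : ℝ) / m := by
  unfold dens
  congr 2
  unfold err errI
  rw [← Set.ncard_coe_finset]
  congr 1
  ext i
  rw [Finset.mem_coe, Finset.mem_filter, Finset.mem_Ico, Set.mem_inter_iff, Set.mem_symmDiff,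
    Set.mem_Iio]
  have hA : bf A i = true ↔ i ∈ A := by unfold bf; simp
  have hB : bf B i = true ↔ i ∈ B := by unfold bf; simp
  rw [← hA, ← hB]
  cases bf A i <;> cases bf B i <;> simp

lemma err_of_lt {A B : Set ℕ} {K : ℕ} (hK : 0 < K) (h : upperDensity (symmDiff A B) < 1 / K) :
    ∃ M, ∀ m ≥ M, K * err (bf A) (bf B) m ≤ m := by
  have h1 := eventually_lt_of_limsup_lt h (bdd_above _)
  obtain ⟨M, hM⟩ := eventually_atTop.1 h1
  refine ⟨M, fun m hm => ?_⟩
  have h2 := hM m hm
  rw [dens_symmDiff] at h2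
  rcases Nat.eq_zero_or_pos m with h0 | h0
  · subst h0
    simp [err, errI]
  · have hm' : (0 : ℝ) < m := by exact_mod_cast h0
    have hK' : (0 : ℝ) < K := by exact_mod_cast hK
    rw [div_lt_div_iff₀ hm' hK'] at h2
    have h3 : (K * err (bf A) (bf B) m : ℝ) < m := by linarith
    exact_mod_cast h3.le

lemma similar_of_err {A B : Set ℕ} (h : ∀ K : ℕ, ∃ M, ∀ m ≥ M, K * err (bf A) (bf B) m ≤ m) :
    CoarselySimilar A B := by
  unfold CoarselySimilar
  rw [Metric.tendsto_atTop]
  intro ε hε
  obtain ⟨K, hK⟩ := exists_nat_gt (1 / ε)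
  obtain ⟨M, hM⟩ := h K
  refine ⟨max M 1, fun m hm => ?_⟩
  have hm1 : 1 ≤ m := (le_max_right _ _).trans hm
  have h1 := hM m ((le_max_left _ _).trans hm)
  have hm' : (0 : ℝ) < m := by exact_mod_cast hm1
  have hKpos : (0 : ℝ) < K := lt_trans (by positivity) hK
  rw [dist_zero_right, Real.norm_of_nonneg (dens_nonneg _ _), dens_symmDiff,
    div_lt_iff₀ hm']
  have h2 : (K : ℝ) * err (bf A) (bf B) m ≤ m := by exact_mod_cast h1
  have h3 : 1 < K * ε := by
    rw [div_lt_iff₀ hε] at hK
    exact hK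
  by_contra hcon
  push Not at hcon
  have h4 : (K : ℝ) * (ε * m) ≤ m := (mul_le_mul_of_nonneg_left hcon hKpos.le).trans h2
  nlinarith

lemma chi_reducible_iff (A B : Set ℕ) :
    TuringReducible (chi A) (chi B) ↔ Nat.RecursiveIn {orc (bf B)} (orc (bf A)) := by
  unfold TuringReducible
  rw [chi_eq, chi_eq, RecursiveIn.iff_nat]

/-- **Theorem.** For a noncomputable `A₀`, the sets that do not compute `A₀` generate a proper
closed subspace. -/
theorem main (A₀ : Set ℕ) :
    IsClosed (generated {B : Set ℕ | ¬ TuringReducible (chi A₀) (chi B)}) := by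
  rw [← closure_subset_iff_isClosed]
  intro x hx
  rw [Metric.mem_closure_iff] at hx
  induction x using Quotient.inductionOn with
  | h X =>
    have key : ∀ K : ℕ, ∃ Y : ℕ → Bool, ¬ Nat.RecursiveIn {orc Y} (orc (bf A₀)) ∧
        ∃ M, ∀ m ≥ M, 2 * K * err (bf X) Y m ≤ m := by
      intro K
      obtain ⟨y, ⟨Y, hY, rfl⟩, hd⟩ := hx (1 / ((2 * (K + 1) : ℕ) : ℝ)) (by positivity)
      obtain ⟨M, hM⟩ := err_of_lt (K := 2 * (K + 1)) (by omega) hd
      refine ⟨bf Y, fun h => hY ((chi_reducible_iff _ _).2 h), M, fun m hm => ?_⟩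
      refine le_trans ?_ (hM m hm)
      exact Nat.mul_le_mul_right _ (by omega)
    obtain ⟨B, hB, hB2⟩ := construct (bf X) (bf A₀) key
    refine ⟨{i | B i = true}, ?_, ?_⟩
    · intro h
      apply hB2
      have := (chi_reducible_iff _ _).1 h
      rwa [bf_setOf] at this
    · apply Quotient.sound
      apply similar_of_err
      intro K
      rw [bf_setOf]
      exact hB K

/-- **Answer to Q1.**  There is a Turing-invariant (even downward closed under Turing reducibility)
class `U` of sets whose generated subspace is nonempty, proper and closed in the metric space of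
coarse similarity classes. -/
theorem result : ∃ U : Set (Set ℕ), TuringInvariant U ∧
    (∀ A B : Set ℕ, A ∈ U → TuringReducible (chi B) (chi A) → B ∈ U) ∧
    (generated U).Nonempty ∧ generated U ≠ Set.univ ∧ IsClosed (generated U) := by
  obtain ⟨a, ha⟩ := exists_noncomputable
  let A₀ : Set ℕ := {i | a i = true}
  have hA₀ : bf A₀ = a := bf_setOf a
  refine ⟨{B : Set ℕ | ¬ TuringReducible (chi A₀) (chi B)}, ?_, ?_, ?_, ?_, main A₀⟩
  · intro A B hA hAB h
    exact hA (TuringReducible.trans h hAB.1)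
  · intro A B hA hAB h
    exact hA (TuringReducible.trans h hAB)
  · refine ⟨coarseClass ∅, ∅, ?_, rfl⟩
    intro h
    rw [chi_reducible_iff, hA₀] at h
    have : bf ∅ = fun _ => false := by
      funext n; simp [bf]
    rw [this] at h
    exact ha h
  · intro h
    have h1 : coarseClass {i | code a i = true} ∈
        generated {B : Set ℕ | ¬ TuringReducible (chi A₀) (chi B)} := by
      rw [h]; trivial
    obtain ⟨B, hB, hB2⟩ := h1
    apply hB
    rw [chi_reducible_iff, hA₀]
    have h2 : CoarselySimilar B {i | code a i = true} := Quotient.exact hB2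
    have h3 : upperDensity (symmDiff B {i | code a i = true}) < 1 / (8 : ℕ) := by
      rw [coarselySimilar_iff.1 h2]
      norm_num
    obtain ⟨M, hM⟩ := err_of_lt (by norm_num) h3
    rw [bf_setOf] at hM
    exact code_computes a (bf B) M hM

end Pool.Agent.Results.MP_4c1ea5_lc.ConeAvoidance
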